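import Pool.Agent.PalF.FINAL

/-!
# Divergence free fields with a non-hyperbolic closed orbit are limits of fields with one
attractor of full basin
-/

set_option autoImplicit false

open scoped Manifold ContDiff Topology
open MeasureTheory Set Pool.Agent.Palis Pool.Agent.PalF

namespace Pool.Agent.Results.MP_3a2b62_an.ClosedOrbit

/-- Let `M` be a closed connected `3`-manifold with a smooth volume `μ` and `X` a divergence free
`C^∞` field with a closed orbit `γ` that is not hyperbolic. Then, in the `C^r` topology, for every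
`r ≤ ∞`, `X` is a limit of `C^∞` fields `Y` for which `γ` is a closed orbit and an attractor whose
basin has full measure. -/
theorem result (E : Type) [NormedAddCommGroup E] [NormedSpace ℝ E] [FiniteDimensional ℝ E]
    [MeasurableSpace E] [BorelSpace E] (hE : Module.finrank ℝ E = 3)
    (M : Type) [TopologicalSpace M] [ChartedSpace E M] [IsManifold 𝓘(ℝ, E) ∞ M] [T2Space M]
    [CompactSpace M] [ConnectedSpace M] [MeasurableSpace M] [BorelSpace M]
    (μ : Measure M) (hμ : IsSmoothVolume E μ) (X : VField E M ⊤) (hX : DivFree E μ X)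
    (γ : ℝ → M) (τ : ℝ) (hγ : IsClosedOrbit E X γ τ) (hn : NonHyperbolic E X γ τ) (r : ℕ∞) :
    toCr E M r X ∈ @closure _ (crTopology E M r) {Y | IsSmoothField E Y ∧
      IsClosedOrbit E Y γ τ ∧ AttractsAlmostAll E Y (range γ)} := by
  refine clo1 E M r X {Y | IsSmoothField E Y ∧ IsClosedOrbit E Y γ τ ∧
    AttractsAlmostAll E Y (range γ)} (fun Y hY => hY.1) (fun k _ => ?_)
  exact tORB E M μ X γ τ k hE hμ X.contMDiff hX hγ hn

end Pool.Agent.Results.MP_3a2b62_an.ClosedOrbit
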