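import Pool.Agent.Palis.Symp

open scoped Manifold ContDiff Topology
open Set MeasureTheory

namespace Pool.Agent.Results.MP_3a2b62_an.EnergyFields

open Pool.Agent.Palis

/-- Let `M` be a compact connected smooth manifold, modelled on the finite dimensional real vector
space `E`, and `1 ≤ r ≤ ∞`.
(1) A `C^r` field `X` with a `C^(r+1)` weak Lyapunov function whose critical set is a finite
disjoint union of points and of closed invariant transitive sets is in the `C^r` closure of the
fields with finitely many attractors covering `M`.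
(2) In the class of all fields `X = A dH` (`A` a `C^r` field of bilinear forms on the cotangent
spaces with `A(α,α) ≥ 0`, `H` of class `C^(r+1)`) the assertion of Q2 holds: every such field is a
`C^r` limit of fields of the class with finitely many attractors covering `M`; moreover all orbits
of the approximants converge to finitely many equilibria.
(3) All Hamiltonian fields of nondegenerate alternating 2-forms are in this class, and (if
`dim M ≥ 1`) none of them has itself finitely many attractors covering `M`. -/
theorem result (E : Type) [NormedAddCommGroup E] [NormedSpace ℝ E] [FiniteDimensional ℝ E]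
    [MeasurableSpace E] [BorelSpace E]
    (M : Type) [TopologicalSpace M] [ChartedSpace E M] [IsManifold 𝓘(ℝ, E) ∞ M]
    [CompactSpace M] [T2Space M] [ConnectedSpace M] (r : ℕ∞) (hr : 1 ≤ r) :
    (∀ (X : VField E M r) (h : M → ℝ), ContMDiff 𝓘(ℝ, E) 𝓘(ℝ, ℝ) ((r : ℕ∞ω) + 1) h →
      (∀ x, 0 ≤ diff E h x (X x)) →
      ∀ (ι : Type) [Finite ι] (K : ι → Set M), (∀ i, IsClosed (K i)) →
      Pairwise (Function.onFun Disjoint K) → {x | diff E h x = 0} = ⋃ i, K i →
      (∀ i, (∃ p, K i = {p}) ∨ (Invariant E X (K i) ∧ Palis.Transitive E X (K i))) →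
      X ∈ closure[crTopology E M r] {Y | FinitelyManyAttractors E Y}) ∧
    (∀ X : VField E M r, IsEnergyField E r X →
      X ∈ closure[crTopology E M r]
        {Y | IsEnergyField E r Y ∧ AllConverge E Y ∧ FinitelyManyAttractors E Y}) ∧
    (∀ S : ∀ x : M, TangentSpace 𝓘(ℝ, E) x →ₗ[ℝ] TangentSpace 𝓘(ℝ, E) x →ₗ[ℝ] ℝ,
      IsAlmostSymplectic E r S →
      ∀ H : M → ℝ, ContMDiff 𝓘(ℝ, E) 𝓘(ℝ, ℝ) ((r : ℕ∞ω) + 1) H →
      ∀ X : VField E M r, (∀ x v, S x (X x) v = diff E H x v) →
      IsEnergyField E r X ∧ (1 ≤ Module.finrank ℝ E → ¬ FinitelyManyAttractors E X)) :=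
  ⟨fun X _ hh hpos _ _ K hK hd hcover hpiece => lasalle hr X hh hpos K hK hd hcover hpiece,
    fun X hX => energy_closure hr X hX,
    fun _ hS _ hH X hX => hamiltonian hr hS hH X hX⟩

end Pool.Agent.Results.MP_3a2b62_an.EnergyFields
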