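import Mathlib
import Pool.Agent.Pal.FINAL

/-!
# Volume preserving diffeomorphisms with a periodic point whose jet is stable
-/

set_option autoImplicit false

open Set MeasureTheory Filter Topology Asymptotics
open scoped Manifold ContDiff

namespace Pool.Agent.Variants.MP_3a2b62_an.StableJet

section Definitions

variable (E : Type) [NormedAddCommGroup E] [NormedSpace ℝ E] {M : Type} [TopologicalSpace M]
  [ChartedSpace E M]

variable (M) in
/-- The smooth charts of the manifold `M` (modelled on `E`), i.e. its maximal `C^∞` atlas. -/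
def Ch : Set (OpenPartialHomeomorph M E) := IsManifold.maximalAtlas 𝓘(ℝ, E) ∞ M

/-- `g` is a `C^s` diffeomorphism of `M`. -/
def IsDiffeo (s : ℕ∞) (g : M → M) : Prop :=
  ∃ G : Diffeomorph 𝓘(ℝ, E) 𝓘(ℝ, E) M M s, (G : M → M) = g

/-- `μ` is a smooth volume: around every point there is a smooth chart in which `μ` is Lebesgue
measure. -/
def IsVolume [MeasureSpace E] [MeasurableSpace M] (μ : Measure M) : Prop :=
  ∀ q : M, ∃ e ∈ Ch E M, q ∈ e.source ∧
    ∀ A ⊆ e.source, MeasurableSet A → μ A = volume (e '' A)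

variable {E}

/-- On `K` the derivatives of order at most `r` of `g` and `f`, read in the charts `e` and `e'`,
differ by less than `ε`. -/
def CrClose (r : ℕ) (f g : M → M) (e e' : OpenPartialHomeomorph M E) (K : Set M) (ε : ℝ) :
    Prop :=
  MapsTo g K e'.source ∧ ∀ x ∈ K, ∀ j ≤ r,
    ‖iteratedFDeriv ℝ j (e' ∘ g ∘ e.symm) (e x) - iteratedFDeriv ℝ j (e' ∘ f ∘ e.symm) (e x)‖ < ε

variable (E)

/-- `V` contains all maps that are close to `g` in the `C^r` topology: there are finitely many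
compact sets `K i`, in charts `e i` and mapped by `g` into charts `e' i`, and an `ε > 0` such that
`V` contains all maps whose derivatives of order at most `r` on the sets `K i`, read in these
charts, differ from those of `g` by less than `ε`. -/
def CrNhd (r : ℕ) (g : M → M) (V : Set (M → M)) : Prop :=
  ∃ (N : ℕ) (e e' : Fin N → OpenPartialHomeomorph M E) (K : Fin N → Set M) (ε : ℝ), 0 < ε ∧
    (∀ i, e i ∈ Ch E M ∧ e' i ∈ Ch E M ∧ IsCompact (K i) ∧ K i ⊆ (e i).source ∧
      MapsTo g (K i) (e' i).source) ∧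
    ∀ g' : M → M, (∀ i, CrClose r g g' (e i) (e' i) (K i) ε) → g' ∈ V

end Definitions

/-- The basin of `Λ`: the points whose `ω`-limit set is contained in `Λ`. -/
def basin {M : Type} [TopologicalSpace M] (g : M → M) (Λ : Set M) : Set M :=
  {x | ∀ y, MapClusterPt y atTop (fun k : ℕ => g^[k] x) → y ∈ Λ}

/-- `Λ` is an attractor of `g`: it is invariant and transitive, and its basin has positive
measure. -/
def IsAttractor {M : Type} [TopologicalSpace M] [MeasurableSpace M] (μ : Measure M) (g : M → M)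
    (Λ : Set M) : Prop :=
  g '' Λ = Λ ∧ (∃ x ∈ Λ, Λ ⊆ closure (range fun k : ℕ => g^[k] x)) ∧ 0 < μ (basin g Λ)

/-- `g` has an attractor which is a finite set (so it is a periodic orbit) and whose basin has full
measure. -/
def OneSink {M : Type} [TopologicalSpace M] [MeasurableSpace M] (μ : Measure M) (g : M → M) :
    Prop :=
  ∃ Λ : Set M, Λ.Finite ∧ IsAttractor μ g Λ ∧ μ (basin g Λ)ᶜ = 0

theorem exists_metric {M : Type} [t : TopologicalSpace M]
    (h : TopologicalSpace.MetrizableSpace M) :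
    ∃ d : MetricSpace M, d.toUniformSpace.toTopologicalSpace = t :=
  ⟨TopologicalSpace.metrizableSpaceMetric M, rfl⟩

theorem nbd_imp {n : ℕ} {M : Type} [TopologicalSpace M] [MeasurableSpace M]
    [ChartedSpace (EuclideanSpace ℝ (Fin n)) M] {μ : Measure M} {g : M → M}
    (h : Pool.Agent.Pal.Nbd n g {g' | Pool.Agent.Pal.OneSink μ g'}) :
    CrNhd (EuclideanSpace ℝ (Fin n)) 1 g
      {g' | IsDiffeo (EuclideanSpace ℝ (Fin n)) 1 g' → OneSink μ g'} := by
  obtain ⟨N, e, e', K, ε, hε, hv, hg'⟩ := h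
  exact ⟨N, e, e', K, ε, hε, hv, fun g' hc hd => hg' g' hd hc⟩

/-- Let `μ` be a smooth volume on the closed connected manifold `M` of dimension `n ≥ 1` and `f` a
`C^s` diffeomorphism that preserves `μ` and has a periodic point `p` of minimal period `m`, such
that `I ∘ f^m - I = o(|x - p|^(r + 1))` for some smooth function `I` with a nondegenerate minimum
at `p`. Every `C^r` neighbourhood of `f` contains a `C^s` diffeomorphism `g` such that all `C^1`
diffeomorphisms that are `C^1` close to `g` have exactly one attractor, which is finite and has a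
basin of full measure. -/
theorem result (n : ℕ) (hn : 1 ≤ n) (M : Type) [TopologicalSpace M] [T2Space M] [CompactSpace M]
    [ConnectedSpace M] [ChartedSpace (EuclideanSpace ℝ (Fin n)) M]
    [IsManifold 𝓘(ℝ, EuclideanSpace ℝ (Fin n)) ∞ M] [MeasurableSpace M] [BorelSpace M]
    (μ : Measure M) (hμ : IsVolume (EuclideanSpace ℝ (Fin n)) μ) (s : ℕ∞) (r : ℕ) (hr : 1 ≤ r)
    (hrs : (r : ℕ∞) ≤ s)
    (f : M → M) (hf : IsDiffeo (EuclideanSpace ℝ (Fin n)) s f) (hfμ : MeasurePreserving f μ μ)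
    (m : ℕ) (hm : 1 ≤ m) (p : M) (hfp : f^[m] p = p) (hmin : ∀ i, 0 < i → i < m → f^[i] p ≠ p)
    (e : OpenPartialHomeomorph M (EuclideanSpace ℝ (Fin n)))
    (he : e ∈ Ch (EuclideanSpace ℝ (Fin n)) M) (hpe : p ∈ e.source)
    (I : EuclideanSpace ℝ (Fin n) → ℝ) (hI : ContDiffAt ℝ ∞ I (e p)) (b : ℝ) (hb : 0 < b)
    (hIb : ∀ᶠ y in 𝓝 (e p), b * ‖y - e p‖ ^ 2 ≤ I y - I (e p))
    (hIf : (fun y => I ((e ∘ f^[m] ∘ e.symm) y) - I y) =o[𝓝 (e p)]
      (fun y => ‖y - e p‖ ^ (r + 1)))
    (V : Set (M → M)) (hV : CrNhd (EuclideanSpace ℝ (Fin n)) r f V) :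
    ∃ g ∈ V, IsDiffeo (EuclideanSpace ℝ (Fin n)) s g ∧ CrNhd (EuclideanSpace ℝ (Fin n)) 1 g
      {g' | IsDiffeo (EuclideanSpace ℝ (Fin n)) 1 g' → OneSink μ g'} := by
  have hmet : TopologicalSpace.MetrizableSpace M :=
    Manifold.metrizableSpace 𝓘(ℝ, EuclideanSpace ℝ (Fin n)) M
  obtain ⟨d, hd⟩ := exists_metric hmet
  subst hd
  obtain ⟨N, e', e'', K, ε, hε, hv, hg'⟩ := hV
  have hrob := Pool.Agent.Pal.rob_all n M s r f hrs hf N e' e'' K ε hv
  obtain ⟨g, hgU, hgd, hgN⟩ := Pool.Agent.Pal.tMAIN3 n M μ s r f _ m p e I b hn hr hrs hμ hf hfμ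
    hrob (fun i => ⟨(hv i).2.2.2.2, fun x hx j hj => by simpa using hε⟩) hm hfp hmin he hpe hI
    hb hIb hIf
  exact ⟨g, hg' g hgU, hgd, nbd_imp hgN⟩

end Pool.Agent.Variants.MP_3a2b62_an.StableJet
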