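import Pool.Agent.PalT.FINAL
import Pool.Agent.PalF.FINAL

/-!
# Divergence free fields with a constant invariant torus of codimension one are limits of fields
with one attractor of full basin
-/

set_option autoImplicit false

open scoped Manifold ContDiff Topology
open MeasureTheory Set Filter Pool.Agent.Palis Pool.Agent.PalF

namespace Pool.Agent.Variants.MP_3a2b62_an.TorusFlow

section Torus

variable {d : ℕ} {M : Type} [TopologicalSpace M] [ChartedSpace (EuclideanSpace ℝ (Fin (d + 1))) M]

/-- `μ` is a smooth volume: around every point there is a smooth chart in which `μ` is Lebesgue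
measure. -/
def IsVolume (d : ℕ) {M : Type} [TopologicalSpace M]
    [ChartedSpace (EuclideanSpace ℝ (Fin (d + 1))) M] [MeasurableSpace M] (μ : Measure M) :
    Prop :=
  ∀ q : M, ∃ e ∈ IsManifold.maximalAtlas 𝓘(ℝ, EuclideanSpace ℝ (Fin (d + 1))) ∞ M,
    q ∈ e.source ∧ ∀ A ⊆ e.source, MeasurableSet A → μ A = volume (e '' A)

/-- The vectors whose coordinate `x 0` is `0` and whose other coordinates are integers. -/
def Lat (d : ℕ) : Set (EuclideanSpace ℝ (Fin (d + 1))) := {v | v 0 = 0 ∧ ∀ i, ∃ k : ℤ, v i = k}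

/-- The strip `|x 0| < w`. -/
def Strip (d : ℕ) (w : ℝ) : Set (EuclideanSpace ℝ (Fin (d + 1))) := {x | |x 0| < w}

/-- `T` parametrises a collar of an embedded `d`-dimensional torus in the `(d + 1)`-dimensional
manifold `M`: on the strip `|x 0| < w` it is locally the inverse of a smooth chart, and
`T x = T x'` if and only if `x - x'` is an integer vector with first coordinate `0`. -/
def Collar (w : ℝ) (T : EuclideanSpace ℝ (Fin (d + 1)) → M) : Prop :=
  0 < w ∧
    (∀ x ∈ Strip d w,
      ∃ e ∈ IsManifold.maximalAtlas 𝓘(ℝ, EuclideanSpace ℝ (Fin (d + 1))) ∞ M, x ∈ e.target ∧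
        ∀ᶠ z in 𝓝 x, T z = e.symm z) ∧
    ∀ x ∈ Strip d w, ∀ x' ∈ Strip d w, (T x = T x' ↔ x - x' ∈ Lat d)

/-- The torus of the collar `T`. -/
def Torus (T : EuclideanSpace ℝ (Fin (d + 1)) → M) : Set M := T '' {x | x 0 = 0}

end Torus

/-- Let `M` be a closed connected manifold of dimension `d + 1` with a smooth volume `μ` and `X` a
divergence free `C^∞` field that is tangent to a torus of codimension one (with a collar) and
constant on it: its orbits on the torus are the lines `x + t v`. Then, in the `C^r` topology, for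
every `r ≤ ∞`, `X` is a limit of `C^∞` fields `Y` for which this torus is an attractor whose basin
has full measure. -/
theorem result (d : ℕ) (M : Type) [TopologicalSpace M]
    [ChartedSpace (EuclideanSpace ℝ (Fin (d + 1))) M]
    [IsManifold 𝓘(ℝ, EuclideanSpace ℝ (Fin (d + 1))) ∞ M] [T2Space M]
    [CompactSpace M] [ConnectedSpace M] [MeasurableSpace M] [BorelSpace M]
    (μ : Measure M) (hμ : IsVolume d μ)
    (X : VField (EuclideanSpace ℝ (Fin (d + 1))) M ⊤)
    (hX : DivFree (EuclideanSpace ℝ (Fin (d + 1))) μ X) (w : ℝ)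
    (T : EuclideanSpace ℝ (Fin (d + 1)) → M) (hT : Collar w T)
    (v : EuclideanSpace ℝ (Fin (d + 1))) (hv : v 0 = 0)
    (hTX : ∀ x : EuclideanSpace ℝ (Fin (d + 1)), x 0 = 0 →
      IsMIntegralCurve (fun t : ℝ => T (x + t • v)) (X : ∀ x : M, TangentSpace _ x)) (r : ℕ∞) :
    toCr (EuclideanSpace ℝ (Fin (d + 1))) M r X ∈
      @closure _ (crTopology (EuclideanSpace ℝ (Fin (d + 1))) M r)
        {Y | IsSmoothField (EuclideanSpace ℝ (Fin (d + 1))) Y ∧
          AttractsAlmostAll (EuclideanSpace ℝ (Fin (d + 1))) Y (Torus T)} := by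
  refine clo1 (EuclideanSpace ℝ (Fin (d + 1))) M r X
    {Y | IsSmoothField (EuclideanSpace ℝ (Fin (d + 1))) Y ∧
      AttractsAlmostAll (EuclideanSpace ℝ (Fin (d + 1))) Y (Torus T)} (fun Y hY => hY.1)
    (fun k _ => ?_)
  exact Pool.Agent.PalT.tMAINF d M μ w T X v k hμ hT X.contMDiff hX hv hTX

end Pool.Agent.Variants.MP_3a2b62_an.TorusFlow
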