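import Pool.Agent.Tri.Final

open Set MeasureTheory Filter Topology
open scoped ContDiff

namespace Pool.Agent.Results.MP_3a2b62_an.TorusTowers

open Pool.Agent.Tri

/-- Let `1 ≤ r ≤ ∞` and let `T n = (ℝ/ℤ)ⁿ`.
(1) Every triangular `C^r` diffeomorphism of `T n` (the coordinate `i` of `f z` depends only on the
coordinates `0, …, i` of `z`) is in the `C^r` closure of the triangular `C^r` diffeomorphisms `g`
such that every orbit of `g` is asymptotic to one of finitely many periodic orbits; these have
finitely many attractors covering `T n`.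
(2) The same holds for towers of circle extensions over a diffeomorphism `φ` of `T d` that is
itself a `C^r` limit of diffeomorphisms all of whose orbits are asymptotic to finitely many
periodic orbits. -/
theorem result :
    (∀ (n : ℕ) (r : ℕ∞) (f : T n → T n), 1 ≤ r → IsDiffeo r f → Triangular f →
      InClosure r f {g | IsDiffeo r g ∧ Triangular g ∧ FinitelyManyLimits g ∧
        FinitelyManyAttractors g}) ∧
    (∀ (d n : ℕ) (h : d ≤ n) (r : ℕ∞) (φ : T d → T d) (f : T n → T n), 1 ≤ r →
      InClosure r φ {ψ | IsDiffeo r ψ ∧ FinitelyManyLimits ψ} → IsDiffeo r f → Tower h φ f →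
      InClosure r f {g | IsDiffeo r g ∧ FinitelyManyLimits g ∧ FinitelyManyAttractors g ∧
        ∃ ψ : T d → T d, IsDiffeo r ψ ∧ FinitelyManyLimits ψ ∧ Tower h ψ g}) :=
  ⟨fun _ _ _ hr hf ht => triangular_of_main main_theorem hr hf ht,
    fun d n h r φ f hr hφ hf ht => main_theorem d n h r φ f hr hφ hf ht⟩

end Pool.Agent.Results.MP_3a2b62_an.TorusTowers
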